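import Mathlib

/-!
# MP_d4d41d_nt: positivity of the partition function times a reciprocal false theta function

With `Ψ(a, b)` the false theta function, `(q; q)_∞ / Ψ(-q², q) = ∑ b(n) qⁿ`, all `b(n)` with `n ≥ 7` are
positive (and `b(0) = 1`, `b(n) = 0` for `1 ≤ n ≤ 6`).  This is the positive answer to Q1.

Proof.  Let `c(n)` be the coefficients of `1 / Ψ(-q², q)`.  By strong induction `5 c(n-1) ≤ 4 c(n)` for
`n ≥ 2`: in the two recurrences for `c(n)` and `c(n-1)` the terms with indices at least `35` are bounded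
by the partial sums of the `c(m)`, which are at most `5 c(m)`.  The coefficients of the numerator and the
denominator agree up to `q⁶`, and `b(n) = 2 (c(n-7) - c(n-12) - c(n-15) + c(n-22)) + ...` with a remainder
of size at most `10 c(n-35)`.
-/

set_option autoImplicit false

open PowerSeries Finset

namespace Pool.Agent.Results.MP_d4d41d_nt.Positivity

section Aux

/-- The coefficients of the denominator up to `q³⁴`. -/
def dl (N : ℕ) : ℤ :=
  if N = 0 then 1 else if N = 1 ∨ N = 2 ∨ N = 7 ∨ N = 22 then -1 else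
  if N = 5 ∨ N = 12 ∨ N = 15 ∨ N = 26 then 1 else 0

/-- The coefficients of the numerator up to `q³⁴`. -/
def el (N : ℕ) : ℤ :=
  if N = 0 then 1 else if N = 1 ∨ N = 2 ∨ N = 12 ∨ N = 15 then -1 else
  if N = 5 ∨ N = 7 ∨ N = 22 ∨ N = 26 then 1 else 0

/-- The coefficients of the reciprocal up to `q³⁴`. -/
def cl (N : ℕ) : ℤ :=
  ([1, 1, 2, 3, 5, 7, 11, 17, 26, 40, 62, 96, 147, 227, 349, 536, 823, 1265, 1943, 2984, 4585, 7044, 10822, 16625, 25543, 39240, 60282, 92608, 142268, 218555, 335750, 515792, 792375, 1217273, 1870016] : List ℤ).getD N 0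

/-- The first values of the reciprocal. -/
theorem vals (d c : ℕ → ℤ) (hd : ∀ N < 35, d N = dl N)
    (hc : ∀ n, ∑ j ∈ range (n + 1), d j * c (n - j) = if n = 0 then 1 else 0) :
    ∀ n < 35, c n = cl n := by
  have h0 : c 0 = 1 := by
    have h := hc 0
    simpa [sum_range_succ, hd, dl] using h
  have h1 : c 1 = 1 := by
    have h := hc 1
    simp [sum_range_succ, hd, dl, h0] at h
    linarith
  have h2 : c 2 = 2 := by
    have h := hc 2
    simp [sum_range_succ, hd, dl, h1, h0] at h
    linarith
  have h3 : c 3 = 3 := by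
    have h := hc 3
    simp [sum_range_succ, hd, dl, h2, h1] at h
    linarith
  have h4 : c 4 = 5 := by
    have h := hc 4
    simp [sum_range_succ, hd, dl, h3, h2] at h
    linarith
  have h5 : c 5 = 7 := by
    have h := hc 5
    simp [sum_range_succ, hd, dl, h4, h3, h0] at h
    linarith
  have h6 : c 6 = 11 := by
    have h := hc 6
    simp [sum_range_succ, hd, dl, h5, h4, h1] at h
    linarith
  have h7 : c 7 = 17 := by
    have h := hc 7
    simp [sum_range_succ, hd, dl, h6, h5, h2, h0] at h
    linarith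
  have h8 : c 8 = 26 := by
    have h := hc 8
    simp [sum_range_succ, hd, dl, h7, h6, h3, h1] at h
    linarith
  have h9 : c 9 = 40 := by
    have h := hc 9
    simp [sum_range_succ, hd, dl, h8, h7, h4, h2] at h
    linarith
  have h10 : c 10 = 62 := by
    have h := hc 10
    simp [sum_range_succ, hd, dl, h9, h8, h5, h3] at h
    linarith
  have h11 : c 11 = 96 := by
    have h := hc 11
    simp [sum_range_succ, hd, dl, h10, h9, h6, h4] at h
    linarith
  have h12 : c 12 = 147 := by
    have h := hc 12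
    simp [sum_range_succ, hd, dl, h11, h10, h7, h5, h0] at h
    linarith
  have h13 : c 13 = 227 := by
    have h := hc 13
    simp [sum_range_succ, hd, dl, h12, h11, h8, h6, h1] at h
    linarith
  have h14 : c 14 = 349 := by
    have h := hc 14
    simp [sum_range_succ, hd, dl, h13, h12, h9, h7, h2] at h
    linarith
  have h15 : c 15 = 536 := by
    have h := hc 15
    simp [sum_range_succ, hd, dl, h14, h13, h10, h8, h3, h0] at h
    linarith
  have h16 : c 16 = 823 := by
    have h := hc 16
    simp [sum_range_succ, hd, dl, h15, h14, h11, h9, h4, h1] at h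
    linarith
  have h17 : c 17 = 1265 := by
    have h := hc 17
    simp [sum_range_succ, hd, dl, h16, h15, h12, h10, h5, h2] at h
    linarith
  have h18 : c 18 = 1943 := by
    have h := hc 18
    simp [sum_range_succ, hd, dl, h17, h16, h13, h11, h6, h3] at h
    linarith
  have h19 : c 19 = 2984 := by
    have h := hc 19
    simp [sum_range_succ, hd, dl, h18, h17, h14, h12, h7, h4] at h
    linarith
  have h20 : c 20 = 4585 := by
    have h := hc 20
    simp [sum_range_succ, hd, dl, h19, h18, h15, h13, h8, h5] at h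
    linarith
  have h21 : c 21 = 7044 := by
    have h := hc 21
    simp [sum_range_succ, hd, dl, h20, h19, h16, h14, h9, h6] at h
    linarith
  have h22 : c 22 = 10822 := by
    have h := hc 22
    simp [sum_range_succ, hd, dl, h21, h20, h17, h15, h10, h7, h0] at h
    linarith
  have h23 : c 23 = 16625 := by
    have h := hc 23
    simp [sum_range_succ, hd, dl, h22, h21, h18, h16, h11, h8, h1] at h
    linarith
  have h24 : c 24 = 25543 := by
    have h := hc 24
    simp [sum_range_succ, hd, dl, h23, h22, h19, h17, h12, h9, h2] at h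
    linarith
  have h25 : c 25 = 39240 := by
    have h := hc 25
    simp [sum_range_succ, hd, dl, h24, h23, h20, h18, h13, h10, h3] at h
    linarith
  have h26 : c 26 = 60282 := by
    have h := hc 26
    simp [sum_range_succ, hd, dl, h25, h24, h21, h19, h14, h11, h4, h0] at h
    linarith
  have h27 : c 27 = 92608 := by
    have h := hc 27
    simp [sum_range_succ, hd, dl, h26, h25, h22, h20, h15, h12, h5, h1] at h
    linarith
  have h28 : c 28 = 142268 := by
    have h := hc 28
    simp [sum_range_succ, hd, dl, h27, h26, h23, h21, h16, h13, h6, h2] at h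
    linarith
  have h29 : c 29 = 218555 := by
    have h := hc 29
    simp [sum_range_succ, hd, dl, h28, h27, h24, h22, h17, h14, h7, h3] at h
    linarith
  have h30 : c 30 = 335750 := by
    have h := hc 30
    simp [sum_range_succ, hd, dl, h29, h28, h25, h23, h18, h15, h8, h4] at h
    linarith
  have h31 : c 31 = 515792 := by
    have h := hc 31
    simp [sum_range_succ, hd, dl, h30, h29, h26, h24, h19, h16, h9, h5] at h
    linarith
  have h32 : c 32 = 792375 := by
    have h := hc 32
    simp [sum_range_succ, hd, dl, h31, h30, h27, h25, h20, h17, h10, h6] at h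
    linarith
  have h33 : c 33 = 1217273 := by
    have h := hc 33
    simp [sum_range_succ, hd, dl, h32, h31, h28, h26, h21, h18, h11, h7] at h
    linarith
  have h34 : c 34 = 1870016 := by
    have h := hc 34
    simp [sum_range_succ, hd, dl, h33, h32, h29, h27, h22, h19, h12, h8] at h
    linarith
  intro n hn
  interval_cases n <;> simp [cl, h0, h1, h2, h3, h4, h5, h6, h7, h8, h9, h10, h11, h12, h13, h14, h15, h16, h17, h18, h19, h20, h21, h22, h23, h24, h25, h26, h27, h28, h29, h30, h31, h32, h33, h34]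

/-- The tail of the convolution. -/
theorem tail_le (d c : ℕ → ℤ) (hd1 : ∀ N, |d N| ≤ 1) (m : ℕ) (hc : ∀ i ≤ m, 0 < c i) :
    |∑ i ∈ range (m + 1), d (35 + i) * c (m - i)| ≤ ∑ i ∈ range (m + 1), c i := by
  refine (abs_sum_le_sum_abs _ _).trans ?_
  rw [← sum_range_reflect (fun i => c i)]
  refine sum_le_sum fun i hi => ?_
  have hi' : i ≤ m := by
    have := mem_range.1 hi
    omega
  have h1 : m + 1 - 1 - i = m - i := by omega
  rw [h1, abs_mul, abs_of_pos (hc (m - i) (by omega))]
  have h2 := hd1 (35 + i)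
  have h3 := hc (m - i) (by omega)
  nlinarith

/-- Splitting of the convolution. -/
theorem split (d c : ℕ → ℤ) (m : ℕ) :
    ∑ j ∈ range (m + 35 + 1), d j * c (m + 35 - j) =
      ∑ j ∈ range 35, d j * c (m + 35 - j) + ∑ i ∈ range (m + 1), d (35 + i) * c (m - i) := by
  have h : m + 35 + 1 = 35 + (m + 1) := by omega
  rw [h, sum_range_add]
  congr 1
  refine sum_congr rfl fun i _ => ?_
  congr 2
  omega

/-- The recurrence with remainder. -/
theorem rec_eq (d c : ℕ → ℤ) (hd : ∀ N < 35, d N = dl N)
    (hc : ∀ n, ∑ j ∈ range (n + 1), d j * c (n - j) = if n = 0 then 1 else 0) (m : ℕ) :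
    c (m + 35) = c (m + 34) + c (m + 33) - c (m + 30) + c (m + 28) - c (m + 23) - c (m + 20) +
      c (m + 13) - c (m + 9) - ∑ i ∈ range (m + 1), d (35 + i) * c (m - i) := by
  have h := hc (m + 35)
  rw [split, if_neg (by omega)] at h
  simp [sum_range_succ, hd, dl] at h
  rw [sum_range_succ, Nat.sub_self]
  linarith

/-- The induction. -/
theorem main (d c : ℕ → ℤ) (hd : ∀ N < 35, d N = dl N) (hd1 : ∀ N, |d N| ≤ 1)
    (hc : ∀ n, ∑ j ∈ range (n + 1), d j * c (n - j) = if n = 0 then 1 else 0) (n : ℕ) :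
    0 < c n ∧ (1 ≤ n → c (n - 1) ≤ c n) ∧ (2 ≤ n → 5 * c (n - 1) ≤ 4 * c n) ∧
      ∑ i ∈ range (n + 1), c i ≤ 5 * c n := by
  have hv := vals d c hd hc
  induction n using Nat.strong_induction_on with
  | _ n ih =>
  rcases lt_or_ge n 35 with hn | hn
  · refine ⟨?_, ?_, ?_, ?_⟩
    · rw [hv n hn]; clear ih hv
      interval_cases n <;> simp [cl]
    · intro h1
      rw [hv n hn, hv (n - 1) (by omega)]; clear ih hv
      interval_cases n <;> simp [cl]
    · intro h1
      rw [hv n hn, hv (n - 1) (by omega)]; clear ih hv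
      interval_cases n <;> simp [cl]
    · rw [hv n hn, sum_congr rfl (fun i hi => hv i (by have := mem_range.1 hi; omega))]; clear ih hv
      interval_cases n <;> simp [sum_range_succ, cl]
  · obtain ⟨m, rfl⟩ : ∃ m, n = m + 35 := ⟨n - 35, by omega⟩
    have pos : ∀ i ≤ m, 0 < c i := fun i hi => (ih i (by omega)).1
    have hr := rec_eq d c hd hc m
    have hT := tail_le d c hd1 m pos
    set T := ∑ i ∈ range (m + 1), d (35 + i) * c (m - i) with hTdef
    have hF := (ih m (by omega)).2.2.2
    -- the recurrence for the previous coefficient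
    obtain ⟨T', hT', hr'⟩ : ∃ T' : ℤ, |T'| ≤ ∑ i ∈ range (m + 1), c i ∧
        c (m + 34) = c (m + 33) + c (m + 32) - c (m + 29) + c (m + 27) - c (m + 22) - c (m + 19) +
          c (m + 12) - c (m + 8) - T' := by
      rcases m with _ | m
      · refine ⟨0, ?_, ?_⟩
        · have := pos 0 le_rfl
          simp
          omega
        · simp only [Nat.zero_add]
          rw [hv 34 (by omega), hv 33 (by omega), hv 32 (by omega), hv 29 (by omega), hv 27 (by omega),
            hv 22 (by omega), hv 19 (by omega), hv 12 (by omega), hv 8 (by omega)]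
          simp [cl]
      · refine ⟨∑ i ∈ range (m + 1), d (35 + i) * c (m - i), ?_, ?_⟩
        · refine (tail_le d c hd1 m fun i hi => pos i (by omega)).trans ?_
          rw [sum_range_succ _ (m + 1)]
          have := pos (m + 1) le_rfl
          omega
        · exact rec_eq d c hd hc m
    have a (k : ℕ) (hk : k < 34) : 5 * c (m + k + 1) ≤ 4 * c (m + k + 2) ∨ k = 33 ∨ k = 34 := by
      by_cases h : k < 33
      · exact Or.inl ((ih (m + k + 2) (by omega)).2.2.1 (by omega))
      · exact Or.inr (Or.inl (by omega))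
    have r (k : ℕ) (hk : k < 33) : 5 * c (m + k + 1) ≤ 4 * c (m + k + 2) :=
      (ih (m + k + 2) (by omega)).2.2.1 (by omega)
    have p (k : ℕ) (hk : k < 35) : 0 < c (m + k) := (ih (m + k) (by omega)).1
    have hm : c m ≤ c (m + 8) := by
      have q (k : ℕ) (hk : k < 34) : c (m + k) ≤ c (m + k + 1) :=
        (ih (m + k + 1) (by omega)).2.1 (by omega)
      have q0 := q 0 (by omega)
      have q1 := q 1 (by omega)
      have q2 := q 2 (by omega)
      have q3 := q 3 (by omega)
      have q4 := q 4 (by omega)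
      have q5 := q 5 (by omega)
      have q6 := q 6 (by omega)
      have q7 := q 7 (by omega)
      simp only [Nat.add_zero, Nat.add_assoc] at *
      linarith
    have key : 5 * c (m + 34) ≤ 4 * c (m + 35) := by
      obtain ⟨t1, t2⟩ := abs_le.1 hT
      obtain ⟨t3, t4⟩ := abs_le.1 hT'
      have r7 := r 7 (by omega)
      have r8 := r 8 (by omega)
      have r9 := r 9 (by omega)
      have r10 := r 10 (by omega)
      have r11 := r 11 (by omega)
      have r12 := r 12 (by omega)
      have r13 := r 13 (by omega)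
      have r14 := r 14 (by omega)
      have r15 := r 15 (by omega)
      have r16 := r 16 (by omega)
      have r17 := r 17 (by omega)
      have r18 := r 18 (by omega)
      have r19 := r 19 (by omega)
      have r20 := r 20 (by omega)
      have r21 := r 21 (by omega)
      have r22 := r 22 (by omega)
      have r23 := r 23 (by omega)
      have r24 := r 24 (by omega)
      have r25 := r 25 (by omega)
      have r26 := r 26 (by omega)
      have r27 := r 27 (by omega)
      have r28 := r 28 (by omega)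
      have r29 := r 29 (by omega)
      have r30 := r 30 (by omega)
      have r31 := r 31 (by omega)
      have p8 := p 8 (by omega)
      clear_value T
      clear hv hc hd hd1 ih pos hTdef a r p
      norm_num only [Nat.add_assoc] at *
      linarith
    have p34 := p 34 (by omega)
    refine ⟨by linarith, fun _ => ?_, fun _ => ?_, ?_⟩
    · rw [show m + 35 - 1 = m + 34 by omega]
      linarith
    · rw [show m + 35 - 1 = m + 34 by omega]
      exact key
    · rw [sum_range_succ]
      have := (ih (m + 34) (by omega)).2.2.2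
      rw [show m + 34 + 1 = m + 35 by omega] at this
      linarith

/-- The coefficients of the quotient. -/
theorem pos_of (d e c : ℕ → ℤ) (hd : ∀ N < 35, d N = dl N) (hd1 : ∀ N, |d N| ≤ 1)
    (he : ∀ N < 35, e N = el N) (he1 : ∀ N, |e N| ≤ 1)
    (hc : ∀ n, ∑ j ∈ range (n + 1), d j * c (n - j) = if n = 0 then 1 else 0) (n : ℕ) (hn7 : 7 ≤ n) :
    0 < ∑ j ∈ range (n + 1), e j * c (n - j) := by
  have hv := vals d c hd hc
  have hm := main d c hd hd1 hc
  rcases lt_or_ge n 35 with hn | hn
  · have h1 : ∑ j ∈ range (n + 1), e j * c (n - j) = ∑ j ∈ range (n + 1), el j * cl (n - j) := by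
      refine sum_congr rfl fun j hj => ?_
      have := mem_range.1 hj
      rw [he j (by omega), hv (n - j) (by omega)]
    rw [h1]
    clear h1 hm hv hc he hd
    interval_cases n <;> decide
  · obtain ⟨m, rfl⟩ : ∃ m, n = m + 35 := ⟨n - 35, by omega⟩
    have hr := rec_eq d c hd hc m
    have hT := tail_le d c hd1 m fun i _ => (hm i).1
    have hT' := tail_le e c he1 m fun i _ => (hm i).1
    have hF := (hm m).2.2.2
    rw [split]
    have h2 : ∑ j ∈ range 35, e j * c (m + 35 - j) = c (m + 35) - c (m + 34) - c (m + 33) + c (m + 30) +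
        c (m + 28) - c (m + 23) - c (m + 20) + c (m + 13) + c (m + 9) := by
      simp [sum_range_succ, he, el]
      ring
    rw [h2]
    obtain ⟨t1, t2⟩ := abs_le.1 hT
    obtain ⟨t3, t4⟩ := abs_le.1 hT'
    have q0 : c m ≤ c (m + 1) := (hm (m + 1)).2.1 (by omega)
    have r (k : ℕ) : 5 * c (m + k + 1) ≤ 4 * c (m + k + 2) := (hm (m + k + 2)).2.2.1 (by omega)
    have r0 := r 0
    have r1 := r 1
    have r2 := r 2
    have r3 := r 3
    have r4 := r 4
    have r5 := r 5
    have r6 := r 6
    have r7 := r 7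
    have r8 := r 8
    have r9 := r 9
    have r10 := r 10
    have r11 := r 11
    have r12 := r 12
    have r13 := r 13
    have r14 := r 14
    have r15 := r 15
    have r16 := r 16
    have r17 := r 17
    have r18 := r 18
    have r19 := r 19
    have r20 := r 20
    have r21 := r 21
    have r22 := r 22
    have r23 := r 23
    have r24 := r 24
    have r25 := r 25
    have r26 := r 26
    have p0 := (hm m).1
    generalize ∑ i ∈ range (m + 1), d (35 + i) * c (m - i) = T at *
    generalize ∑ i ∈ range (m + 1), e (35 + i) * c (m - i) = T' at *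
    clear hv hc hd hd1 he he1 r hm h2
    norm_num only [Nat.add_assoc] at *
    linarith

end Aux

section Series

/-- The binomial coefficient `n (n - 1) / 2` for an integer `n`. -/
def binom2 (n : ℤ) : ℕ := (n * (n - 1) / 2).toNat

open scoped PowerSeries.WithPiTopology in
/-- The false theta function
`Ψ(a, b) = ∑_{n ≥ 0} a ^ C(n + 1, 2) b ^ C(n, 2) - ∑_{n ≤ -1} a ^ C(n + 1, 2) b ^ C(n, 2)`. -/
noncomputable def falseTheta (a b : ℤ⟦X⟧) : ℤ⟦X⟧ :=
  ∑' n : ℤ, (if 0 ≤ n then 1 else -1) * (a ^ binom2 (n + 1) * b ^ binom2 n)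

open scoped PowerSeries.WithPiTopology in
/-- The product `(q; q)_∞ = ∏_{k ≥ 1} (1 - q ^ k)`. -/
noncomputable def eulerProduct : ℤ⟦X⟧ := ∏' k : ℕ, (1 - X ^ (k + 1) : ℤ⟦X⟧)

/-- The sign of the `n`-th term. -/
def sgn (n : ℤ) : ℤ := (if 0 ≤ n then 1 else -1) * (-1) ^ binom2 (n + 1)

theorem two_mul_binom2 (n : ℤ) : 2 * (binom2 n : ℤ) = n * (n - 1) := by
  have h1 : 0 ≤ n * (n - 1) / 2 := by
    apply Int.ediv_nonneg _ (by norm_num)
    rcases le_or_gt n 0 with h | h
    · nlinarith
    · nlinarith
  rw [binom2, Int.toNat_of_nonneg h1]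
  exact Int.two_mul_ediv_two_of_even (Int.even_mul_pred_self n)

theorem expo (n : ℤ) : 2 * binom2 (n + 1) + binom2 n = pentagonal (-n) := by
  have h1 := two_mul_binom2 n
  have h2 := two_mul_binom2 (n + 1)
  have h3 := two_mul_natCast_pentagonal_neg n
  zify
  nlinarith

theorem term_eq (n : ℤ) :
    (if 0 ≤ n then 1 else -1) * ((-X ^ 2 : ℤ⟦X⟧) ^ binom2 (n + 1) * X ^ binom2 n) =
      C (sgn n) * X ^ pentagonal (-n) := by
  rw [← expo, sgn, neg_pow, ← pow_mul, pow_add]
  split_ifs <;> simp <;> ring

open Classical in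
/-- The series `Ψ(-q², q)`. -/
noncomputable def den : ℤ⟦X⟧ :=
  .mk fun N => if h : ∃ k : ℤ, pentagonal k = N then sgn (-h.choose) else 0

theorem coeff_den (k : ℤ) : coeff (pentagonal k) den = sgn (-k) := by
  have h : ∃ l : ℤ, pentagonal l = pentagonal k := ⟨k, rfl⟩
  rw [den, coeff_mk, dif_pos h, pentagonal_injective h.choose_spec]

theorem coeff_den_zero {N : ℕ} (h : ∀ k : ℤ, pentagonal k ≠ N) : coeff N den = 0 := by
  rw [den, coeff_mk, dif_neg (by simpa using h)]

open scoped PowerSeries.WithPiTopology in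
theorem hasSum_den : HasSum (fun n : ℤ => (if 0 ≤ n then 1 else -1) *
    ((-X ^ 2 : ℤ⟦X⟧) ^ binom2 (n + 1) * X ^ binom2 n)) den := by
  simp_rw [term_eq]
  have h : HasSum ((fun n => C (den.coeff n) * X ^ n) ∘ (pentagonal ∘ Neg.neg)) den := by
    rw [(pentagonal_injective.comp neg_injective).hasSum_iff]
    · simpa [monomial_eq_C_mul_X_pow] using den.hasSum_of_monomials_self
    · intro n hn
      rw [coeff_den_zero]
      · simp
      · intro k hk
        exact hn ⟨-k, by simpa using hk⟩
  convert h using 2 with n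
  simp [coeff_den]

open scoped PowerSeries.WithPiTopology in
theorem falseTheta_eq : falseTheta (-X ^ 2) X = den := hasSum_den.tsum_eq

theorem abs_sgn (n : ℤ) : |sgn n| = 1 := by
  rw [sgn, abs_mul, abs_pow]
  split_ifs <;> simp

theorem abs_coeff_den (N : ℕ) : |coeff N den| ≤ 1 := by
  by_cases h : ∃ k : ℤ, pentagonal k = N
  · obtain ⟨k, rfl⟩ := h
    rw [coeff_den, abs_sgn]
  · rw [coeff_den_zero (by simpa using h)]
    simp

theorem small {k : ℤ} {N : ℕ} (hk : pentagonal k = N) (hN : N < 35) : -4 ≤ k ∧ k ≤ 4 := by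
  have h := two_mul_natCast_pentagonal k
  have h2 : (pentagonal k : ℤ) < 35 := by
    rw [hk]
    exact_mod_cast hN
  constructor
  · by_contra h3
    nlinarith
  · by_contra h3
    nlinarith

theorem den_vals (N : ℕ) (hN : N < 35) : coeff N den = dl N := by
  by_cases h : ∃ k : ℤ, pentagonal k = N
  · obtain ⟨k, hk⟩ := h
    obtain ⟨h1, h2⟩ := small hk hN
    rw [← hk, coeff_den]
    clear hk
    interval_cases k <;> decide
  · rw [coeff_den_zero (by simpa using h)]
    have h0 : N ≠ 0 := fun e => h ⟨0, by rw [e]; rfl⟩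
    have h1 : N ≠ 1 := fun e => h ⟨1, by rw [e]; rfl⟩
    have h2 : N ≠ 2 := fun e => h ⟨-1, by rw [e]; rfl⟩
    have h3 : N ≠ 5 := fun e => h ⟨2, by rw [e]; rfl⟩
    have h4 : N ≠ 7 := fun e => h ⟨-2, by rw [e]; rfl⟩
    have h5 : N ≠ 12 := fun e => h ⟨3, by rw [e]; rfl⟩
    have h6 : N ≠ 15 := fun e => h ⟨-3, by rw [e]; rfl⟩
    have h7 : N ≠ 22 := fun e => h ⟨4, by rw [e]; rfl⟩
    have h8 : N ≠ 26 := fun e => h ⟨-4, by rw [e]; rfl⟩
    simp [dl, h0, h1, h2, h3, h4, h5, h6, h7, h8]

theorem num_vals (N : ℕ) (hN : N < 35) : coeff N (pentagonalSeries ℤ) = el N := by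
  by_cases h : ∃ k : ℤ, pentagonal k = N
  · obtain ⟨k, hk⟩ := h
    obtain ⟨h1, h2⟩ := small hk hN
    rw [← hk, coeff_pentagonalSeries_pentagonal]
    clear hk
    interval_cases k <;> decide
  · rw [coeff_pentagonalSeries_eq_zero ℤ (by simpa using h)]
    have h0 : N ≠ 0 := fun e => h ⟨0, by rw [e]; rfl⟩
    have h1 : N ≠ 1 := fun e => h ⟨1, by rw [e]; rfl⟩
    have h2 : N ≠ 2 := fun e => h ⟨-1, by rw [e]; rfl⟩
    have h3 : N ≠ 5 := fun e => h ⟨2, by rw [e]; rfl⟩
    have h4 : N ≠ 7 := fun e => h ⟨-2, by rw [e]; rfl⟩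
    have h5 : N ≠ 12 := fun e => h ⟨3, by rw [e]; rfl⟩
    have h6 : N ≠ 15 := fun e => h ⟨-3, by rw [e]; rfl⟩
    have h7 : N ≠ 22 := fun e => h ⟨4, by rw [e]; rfl⟩
    have h8 : N ≠ 26 := fun e => h ⟨-4, by rw [e]; rfl⟩
    simp [el, h0, h1, h2, h3, h4, h5, h6, h7, h8]

theorem abs_coeff_num (N : ℕ) : |coeff N (pentagonalSeries ℤ)| ≤ 1 := by
  by_cases h : ∃ k : ℤ, pentagonal k = N
  · obtain ⟨k, rfl⟩ := h
    rw [coeff_pentagonalSeries_pentagonal]
    rcases Int.units_eq_one_or (Int.negOnePow k) with h | h <;> simp [h]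
  · rw [coeff_pentagonalSeries_eq_zero ℤ (by simpa using h)]
    simp

theorem eulerProduct_eq : eulerProduct = pentagonalSeries ℤ :=
  WithPiTopology.tprod_one_sub_X_pow ℤ

theorem const_den : constantCoeff den = ((1 : ℤˣ) : ℤ) := by
  have h := den_vals 0 (by norm_num)
  rw [coeff_zero_eq_constantCoeff] at h
  rw [h]
  rfl

end Series

open scoped PowerSeries.WithPiTopology in
/-- **Positivity.**  The series `Ψ(-q², q)` and the product `(q; q)_∞` are well defined (summable,
multipliable for the topology of coefficientwise convergence), there is exactly one power series `b`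
with `Ψ(-q², q) b = (q; q)_∞`, and `b(0) = 1`, `b(n) = 0` for `1 ≤ n ≤ 6` and `b(n) > 0` for all
`n ≥ 7`. -/
theorem result :
    Summable (fun n : ℤ => (if 0 ≤ n then 1 else -1) *
      ((-X ^ 2 : ℤ⟦X⟧) ^ binom2 (n + 1) * X ^ binom2 n)) ∧
    Multipliable (fun k : ℕ => (1 - X ^ (k + 1) : ℤ⟦X⟧)) ∧
    (∃! b : ℤ⟦X⟧, falseTheta (-X ^ 2) X * b = eulerProduct) ∧
    ∀ b : ℤ⟦X⟧, falseTheta (-X ^ 2) X * b = eulerProduct →
      coeff 0 b = 1 ∧ (∀ n : ℕ, 1 ≤ n → n ≤ 6 → coeff n b = 0) ∧ ∀ n : ℕ, 7 ≤ n → 0 < coeff n b := by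
  have hinv := mul_invOfUnit den 1 const_den
  set c : ℤ⟦X⟧ := invOfUnit den 1 with hcdef
  have uniq : ∀ b : ℤ⟦X⟧, den * b = pentagonalSeries ℤ → b = pentagonalSeries ℤ * c := by
    intro b hb
    calc b = b * (den * c) := by rw [hinv, mul_one]
      _ = (den * b) * c := by ring
      _ = _ := by rw [hb]
  refine ⟨hasSum_den.summable, (WithPiTopology.hasProd_one_sub_X_pow ℤ).multipliable, ?_, ?_⟩
  · rw [falseTheta_eq, eulerProduct_eq]
    refine ⟨pentagonalSeries ℤ * c, ?_, fun b hb => uniq b hb⟩
    show den * (pentagonalSeries ℤ * c) = pentagonalSeries ℤ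
    calc den * (pentagonalSeries ℤ * c) = pentagonalSeries ℤ * (den * c) := by ring
      _ = _ := by rw [hinv, mul_one]
  · intro b hb
    rw [falseTheta_eq, eulerProduct_eq] at hb
    have hc : ∀ n, ∑ j ∈ range (n + 1), coeff j den * coeff (n - j) c = if n = 0 then 1 else 0 := by
      intro n
      rw [← coeff_one, ← hinv, coeff_mul,
        Finset.Nat.sum_antidiagonal_eq_sum_range_succ (fun i j => coeff i den * coeff j c)]
    have hb' : ∀ n, coeff n b = ∑ j ∈ range (n + 1), coeff j (pentagonalSeries ℤ) * coeff (n - j) c := by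
      intro n
      rw [uniq b hb, coeff_mul, Finset.Nat.sum_antidiagonal_eq_sum_range_succ
        (fun i j => coeff i (pentagonalSeries ℤ) * coeff j c)]
    have hv := vals (fun j => coeff j den) (fun j => coeff j c) den_vals hc
    have low : ∀ n < 35, coeff n b = ∑ j ∈ range (n + 1), el j * cl (n - j) := by
      intro n hn
      rw [hb']
      refine sum_congr rfl fun j hj => ?_
      have := mem_range.1 hj
      rw [num_vals j (by omega), hv (n - j) (by omega)]
    refine ⟨?_, ?_, ?_⟩
    · rw [low 0 (by norm_num)]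
      decide
    · intro n h1 h2
      rw [low n (by omega)]
      interval_cases n <;> decide
    · intro n hn
      rw [hb']
      exact pos_of (fun j => coeff j den) (fun j => coeff j (pentagonalSeries ℤ)) (fun j => coeff j c)
        den_vals abs_coeff_den num_vals abs_coeff_num hc n hn

end Pool.Agent.Results.MP_d4d41d_nt.Positivity
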